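import Mathlib

namespace Pool.Agent.MP_ad1a12_co

/-- The points of the half-space `T = {x | 0 < d ⬝ᵥ x}` lying on no plane `ker r`, `r ∈ R`. -/
def Reg (R : Set (Fin 3 → ℝ)) (d : Fin 3 → ℝ) : Set (Fin 3 → ℝ) :=
  {x | 0 < d ⬝ᵥ x ∧ ∀ r ∈ R, r ⬝ᵥ x ≠ 0}

/-- Chambers are the connected components of `Reg R d`. -/
def IsChamber (R : Set (Fin 3 → ℝ)) (d : Fin 3 → ℝ) (K : Set (Fin 3 → ℝ)) : Prop :=
  ∃ x ∈ Reg R d, K = connectedComponentIn (Reg R d) x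

/-- The plane `H = ker f` is a wall of `K`: it misses `K`, and `H ∩ closure K` spans `H`. -/
def IsWall (K : Set (Fin 3 → ℝ)) (f : Fin 3 → ℝ) : Prop :=
  f ≠ 0 ∧ (∀ x ∈ K, f ⬝ᵥ x ≠ 0) ∧
    (Submodule.span ℝ ({x | f ⬝ᵥ x = 0} ∩ closure K) : Set (Fin 3 → ℝ)) = {x | f ⬝ᵥ x = 0}

/-- The roots whose kernel is a wall of `K` and which are positive on `K`. -/
def Base (R : Set (Fin 3 → ℝ)) (K : Set (Fin 3 → ℝ)) : Set (Fin 3 → ℝ) :=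
  {r | r ∈ R ∧ IsWall K r ∧ ∀ x ∈ K, 0 < r ⬝ᵥ x}

/-- The planes `ker r`, `r ∈ R`, form an affine Tits arrangement of rank three in the half-space
`T = {x | 0 < d ⬝ᵥ x}`, and `R` contains exactly one pair `± r` for each plane. -/
structure IsAffineTits (R : Set (Fin 3 → ℝ)) (d : Fin 3 → ℝ) : Prop where
  ne_zero : d ≠ 0
  reduced : ∀ r ∈ R, ∀ c : ℝ, c • r ∈ R ↔ c = 1 ∨ c = -1
  meets : ∀ r ∈ R, ∃ x, 0 < d ⬝ᵥ x ∧ r ⬝ᵥ x = 0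
  locFin : ∀ x, 0 < d ⬝ᵥ x → ∃ U ∈ nhds x, {r | r ∈ R ∧ ∃ y ∈ U, r ⬝ᵥ y = 0}.Finite
  thin : ∀ K, IsChamber R d K → ∀ f, IsWall K f → ∃ c : ℝ, c • f ∈ R
  simplicial : ∀ K, IsChamber R d K → ∃ v : Fin 3 → Fin 3 → ℝ, LinearIndependent ℝ v ∧
    K = {x | ∃ t : Fin 3 → ℝ, (∀ i, 0 < t i) ∧ x = ∑ i, t i • v i}

/-- Edges of the graph `Γ^K`: two distinct walls whose intersection lies in a third plane. -/
def Edge (R : Set (Fin 3 → ℝ)) (K : Set (Fin 3 → ℝ)) (a b : Fin 3 → ℝ) : Prop :=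
  a ∈ Base R K ∧ b ∈ Base R K ∧ a ≠ b ∧
    ∃ u ∈ R, u ≠ a ∧ u ≠ -a ∧ u ≠ b ∧ u ≠ -b ∧ ∀ x, a ⬝ᵥ x = 0 → b ⬝ᵥ x = 0 → u ⬝ᵥ x = 0

/-- Every graph `Γ^K` is connected. -/
def IsIrred (R : Set (Fin 3 → ℝ)) (d : Fin 3 → ℝ) : Prop :=
  ∀ K, IsChamber R d K → ∀ a ∈ Base R K, ∀ b ∈ Base R K, Relation.ReflTransGen (Edge R K) a b

/-- Crystallographic: for every chamber `K`, every root is, up to sign, a sum of elements of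
`Base R K`. -/
def IsCryst (R : Set (Fin 3 → ℝ)) (d : Fin 3 → ℝ) : Prop :=
  ∀ K, IsChamber R d K → ∀ r ∈ R,
    r ∈ AddSubmonoid.closure (Base R K) ∨ -r ∈ AddSubmonoid.closure (Base R K)

end Pool.Agent.MP_ad1a12_co
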